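import Pool.Agent.Lib.MP_7f581e_Z.Bot.Defs
import Pool.Agent.Lib.MP_7f581e_Z.LieG.SolI
import Pool.Agent.Lib.MP_7f581e_Z.LieG.Bridge
import Pool.Agent.Lib.MP_7f581e_Z.Top.Main

/-!
# Final form of the theorem, with groups of Lie type at the bottom
-/

set_option autoImplicit false

universe u

namespace MP7Z

open MP7fR MP7fC MP7fE

/-- **The matrix form implies the general form.** -/
theorem OfLieTypeOut.isLieTypeI {p : ℕ} [Fact p.Prime] {S : Type} [Group S]
    (h : OfLieTypeOut p S) : IsLieTypeI p S := by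
  obtain ⟨hs, N, n, P, Φ, X, _, ι, π, C, _, _, α, β, hP, hΦ, hX, hC, hq, hi⟩ := h
  obtain ⟨e, he, hr⟩ := hΦ.root
  refine ⟨hs, LG.datumOf hP hΦ hX hC he hr,
    π.comp ((LG.ptsEquiv hP hΦ hX).symm : (LG.endOf hP hΦ).pts →* X),
    hq.surj.comp (LG.ptsEquiv hP hΦ hX).symm.surjective, fun σ => ?_, fun s c hsc => ?_⟩
  · obtain ⟨s, c, hsc⟩ := hq.aut σ
    refine ⟨s, c, fun b => ?_⟩
    exact LG.key hP hΦ hX hsc b _ rfl
  · refine hi s c fun x y hxy => ?_
    have h1 := hsc (LG.ptsEquiv hP hΦ hX x)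
    have h2 : (LG.datumOf hP hΦ hX hC he hr).Φ.act (LG.datumOf hP hΦ hX hC he hr).α
        (LG.datumOf hP hΦ hX hC he hr).stab (LG.datumOf hP hΦ hX hC he hr).comm c
        (LG.ptsEquiv hP hΦ hX x) = LG.ptsEquiv hP hΦ hX y := by
      apply Subtype.ext
      have h3 : MP7fS.uact (LG.conjHom (B := LG.MB p n) α) c (ι x) = glConj (α c) (ι x) :=
        LG.uact_conj c (ι x)
      exact h3.trans hxy.symm
    rw [h2] at h1
    change π ((LG.ptsEquiv hP hΦ hX).symm (LG.ptsEquiv hP hΦ hX y)) =
      s * π ((LG.ptsEquiv hP hΦ hX).symm (LG.ptsEquiv hP hΦ hX x)) * s⁻¹ at h1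
    rwa [MulEquiv.symm_apply_apply, MulEquiv.symm_apply_apply] at h1

theorem OfLieTypeOut.congr {p : ℕ} {S T : Type} [Group S] [Group T] (e : S ≃* T)
    (h : OfLieTypeOut p S) : OfLieTypeOut p T := by
  obtain ⟨hs, N, n, P, Φ, X, _, ι, π, C, _, _, α, β, hP, hΦ, hX, hC, hq, hi⟩ := h
  refine ⟨MulEquiv.isSimpleGroup e.symm, N, n, P, Φ, X, inferInstance, ι,
    (e : S →* T).comp π, C, inferInstance, inferInstance, α, β, hP, hΦ, hX, hC,
    ⟨e.surjective.comp hq.surj, fun σ => ?_⟩, fun s c hsc => ?_⟩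
  · obtain ⟨s, c, h4⟩ := hq.aut ((e.trans σ).trans e.symm)
    refine ⟨e s, c, fun x y hxy => ?_⟩
    have h5 := congrArg e (h4 x y hxy)
    rw [map_mul, map_mul, map_inv] at h5
    change e (e.symm (σ (e (π x)))) = _ at h5
    rw [MulEquiv.apply_symm_apply] at h5
    exact h5
  · refine hi (e.symm s) c fun x y hxy => ?_
    have h5 := congrArg e.symm (hsc x y hxy)
    rw [map_mul, map_mul, map_inv] at h5
    change e.symm (e (π y)) = e.symm s * e.symm (e (π x)) * (e.symm s)⁻¹ at h5
    rwa [MulEquiv.symm_apply_apply, MulEquiv.symm_apply_apply] at h5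

/-- The class `𝒮` consists of simple groups and every embedding problem over `K` whose kernel is a
power of a member of `𝒮` has a proper solution. -/
structure GoodAt (K : Type) [Field K] (𝒮 : GroupClass) : Prop where
  congr : ∀ (S T : Type) [Group S] [Group T], (S ≃* T) → 𝒮 S → 𝒮 T
  simple : ∀ (S : Type) [Group S], 𝒮 S → IsSimpleGroup S
  step : ∀ (E : Type) [Group E] [Finite E] (N : Subgroup E) [N.Normal] (S : Type) [Group S]
    (n : ℕ), 𝒮 S → (N ≃* (Fin n → S)) → Solves K (QuotientGroup.mk' N)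

theorem GoodAt.solves_surjective {K : Type} [Field K] {𝒮 : GroupClass} (h𝒮 : GoodAt K 𝒮)
    {E G : Type} [Group E] [Finite E] [Group G] {f : E →* G}
    (hf : Function.Surjective f) (hN : HasFactors 𝒮 f.ker) : Solves K f :=
  SolvesOver.of_mk hf (solves_of_factors h𝒮.congr h𝒮.simple h𝒮.step E f.ker hN)

/-- Closure of regular realizability under extensions. -/
theorem GoodAt.closure_regular {p : ℕ} [Fact p.Prime] {𝒮 : GroupClass}
    (h𝒮 : GoodAt (RatFunc (ZMod p)) 𝒮) {E : Type} [Group E] [Finite E] (N : Subgroup E)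
    [N.Normal] (hN : HasFactors 𝒮 N) (h : OccursRegularly (E ⧸ N) (ZMod p)) :
    (∀ (K : Type u) [Field K] [Algebra (ZMod p) K], OccursRegularly E K) ∧
      ∀ (K : Type u) [Field K] [Algebra (ZMod p) K], IsHilbertian K → Occurs E K := by
  have hk : HasFactors 𝒮 (QuotientGroup.mk' N).ker := by
    rw [QuotientGroup.ker_mk']
    exact hN
  have hH : IsHilbertian (RatFunc (ZMod p)) := MP7fR.isHilbertian_ratFunc (ZMod p)
  have h1 := occurs_pow h hH ((Nat.card (Abelianization E)).primeFactors.card + 1)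
  have h2 := (h𝒮.solves_surjective (powHom_surjective _ _ (QuotientGroup.mk'_surjective N))
    (hasFactors_kerPow h𝒮.congr h𝒮.simple hk _)).occurs h1
  have h3 := per_group (Nat.lt_succ_self _) (k := ZMod p) h2
  exact ⟨fun K _ _ => h3.1 K, fun K _ _ hK => h3.2 K hK⟩

theorem IsBottomFactor.isSimpleGroup {p : ℕ} [Fact p.Prime] {S : Type} [Group S]
    (h : IsBottomFactor p S) : IsSimpleGroup S :=
  h.elim (isSimpleGroup_of_isFactor S) fun h => h.1

/-- A simple quotient of a finite group is finite. -/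
theorem OfLieTypeOut.finite {p : ℕ} [Fact p.Prime] {S : Type} [Group S]
    (h : OfLieTypeOut p S) : Finite S := by
  obtain ⟨-, D, π, hπ, -⟩ := h.isLieTypeI
  exact Finite.of_surjective π hπ

/-- The class of the composition factors at the bottom is good over `𝔽_p(X)`. -/
theorem goodAt_bottom (p : ℕ) [Fact p.Prime] :
    GoodAt (RatFunc (ZMod p)) (fun S [Group S] => IsBottomFactor p S) := by
  refine ⟨fun S T _ _ e h => h.imp (isFactor_congr p (ZMod p) S T e) fun h => h.congr e,
    fun S _ h => h.isSimpleGroup, ?_⟩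
  intro E _ _ N _ S _ n hS φ
  rcases hS with hS | hS
  · exact good_factor.step (MP7fR.isHilbertian_ratFunc (ZMod p)) E N S n hS φ
  · have := hS.finite
    exact LG.solves_lieTypeI p hS.isLieTypeI (Fin n) (QuotientGroup.mk' N)
      (QuotientGroup.mk'_surjective N)
      ((MulEquiv.subgroupCongr (QuotientGroup.ker_mk' N)).trans φ)

/-- **Final form**, with groups of Lie type at the bottom. -/
theorem final_bot (p : ℕ) [Fact p.Prime] (G : Type) [Group G] [Finite G] (N M : Subgroup G)
    [N.Normal] [M.Normal] (hNM : N ≤ M) (hN : HasFactors (IsBottomFactor p) N)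
    (hM : HasFactors (IsSimpleFactor p) (M ⧸ N.subgroupOf M)) (hT : IsTop p (G ⧸ M)) :
    Occurs G (RatFunc (ZMod p)) ∧ (∀ (K : Type u) [Field K] [CharP K p], OccursRegularly G K) ∧
      ∀ (K : Type u) [Field K] [CharP K p], IsHilbertian K → Occurs G K := by
  have hsim : ∀ (S : Type) [Group S], IsSimpleFactor p S → IsSimpleGroup S := by
    intro S _ h
    rcases h with h | h
    · have : Fact (Nat.card S).Prime := ⟨h⟩
      exact isSimpleGroup_of_prime_card rfl
    · exact IsCAll.isSimpleGroup h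
  have hiso : ∀ (S T : Type) [Group S] [Group T], (S ≃* T) → IsSimpleFactor p S →
      IsSimpleFactor p T := by
    intro S T _ _ e h
    rcases h with h | h
    · left
      rw [← Nat.card_congr e.toEquiv]
      exact h
    · exact Or.inr (IsCAll.congr e h)
  have hMn : (M.map (QuotientGroup.mk' N)).Normal :=
    Subgroup.Normal.map inferInstance _ (QuotientGroup.mk'_surjective N)
  have hM' : HasFactors (IsSimpleFactor p) (M.map (QuotientGroup.mk' N)) :=
    hM.congr hiso hsim (Top.quotEquiv N M)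
  have hT' : IsTop p ((G ⧸ N) ⧸ M.map (QuotientGroup.mk' N)) :=
    hT.congr (QuotientGroup.quotientQuotientEquivQuotient N M hNM).symm
  obtain ⟨Ω, _, _, x, ψ, hψ⟩ := Top.hasGood_main p (M.map (QuotientGroup.mk' N)) hM' hT'
  have h0 : OccursRegularly (G ⧸ N) (ZMod p) := reg Ω x (G ⧸ N) ψ hψ
  have h2 := (goodAt_bottom p).closure_regular N hN h0
  have h3 := (goodAt_bottom p).closure_regular.{u} N hN h0
  refine ⟨(h2.1 (ZMod p)).occurs, fun K _ _ => ?_, fun K _ _ hK => ?_⟩
  · let _ : Algebra (ZMod p) K := ZMod.algebra K p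
    exact h3.1 K
  · let _ : Algebra (ZMod p) K := ZMod.algebra K p
    exact h3.2 K hK

end MP7Z
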