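import Pool.Agent.Lib.MP_7f581e_Z.LieG.Cls
import Pool.Agent.Lib.MP_7f581e_ntE.Factor

/-!
# The composition factors at the bottom: definitions
-/

set_option autoImplicit false

namespace MP7Z

/-- An element of `C` which induces an inner automorphism of `S` is trivial. -/
def IsFaithfulMod {p n : ℕ} {X C S : Type} [Group X] [Group C] [Group S]
    (ι : X →* GLn n (ZMod p)) (α : C →* GLn n (ZMod p)) (π : X →* S) : Prop :=
  ∀ (s : S) (c : C), (∀ x y : X, ι y = glConj (α c) (ι x) → π y = s * π x * s⁻¹) → c = 1

/-- The simple groups of Lie type in characteristic `p` (see `OfLieType`) with a group `C` of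
symmetries isomorphic to the group of outer automorphisms of `S`. -/
def OfLieTypeOut (p : ℕ) (S : Type) [Group S] : Prop :=
  IsSimpleGroup S ∧ ∃ (N n : ℕ) (P : PMap p N n) (Φ : EMap p n)
    (X : Type) (_ : Group X) (ι : X →* GLn n (ZMod p)) (π : X →* S)
    (C : Type) (_ : Group C) (_ : Finite C) (α : C →* GLn n (ZMod p)) (β : C →* GLn N (ZMod p)),
    IsGp P ∧ IsRoot P Φ ∧ IsPts P Φ ι ∧ IsSym P Φ α β ∧ IsQuo ι α π ∧ IsFaithfulMod ι α π

/-- The composition factors at the bottom: the groups `IsFactor` (order `p`, alternating,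
classical in characteristic `p` with split automorphism group, complete Galois groups over
`𝔽_p(X)`), and the groups `OfLieTypeOut`. -/
def IsBottomFactor (p : ℕ) [Fact p.Prime] (S : Type) [Group S] : Prop :=
  MP7fE.IsFactor p (ZMod p) S ∨ OfLieTypeOut p S

end MP7Z
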